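import Mathlib

/-! Free commutative monoids and separation of points by additive invariants. -/

set_option autoImplicit false

open Finset

namespace Pool.Agent.TH861.FT

variable {P : Type*}

/-- The value on the element `x` of the free commutative monoid on `P` of the additive map with the
values `w p` on the generators. -/
def total {A : Type*} [AddCommGroup A] (w : P → A) (x : P →₀ ℕ) : A := x.sum fun p n => n • w p

section
variable {A : Type*} [AddCommGroup A]

lemma total_zero (w : P → A) : total w 0 = 0 := by simp [total]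

lemma total_add (w : P → A) (x y : P →₀ ℕ) : total w (x + y) = total w x + total w y := by
  classical
  unfold total
  exact Finsupp.sum_add_index' (by simp) (by intro p m n; rw [add_smul])

lemma total_single (w : P → A) (p : P) (n : ℕ) : total w (Finsupp.single p n) = n • w p := by
  unfold total
  exact Finsupp.sum_single_index (by simp)

lemma total_sum (w : P → A) {ι : Type*} (s : Finset ι) (f : ι → (P →₀ ℕ)) :
    total w (∑ i ∈ s, f i) = ∑ i ∈ s, total w (f i) := by
  classical
  induction s using Finset.induction_on with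
  | empty => simp [total_zero]
  | insert a s ha ih => rw [sum_insert ha, sum_insert ha, total_add, ih]

lemma total_smul (w : P → A) (n : ℕ) (x : P →₀ ℕ) : total w (n • x) = n • total w x := by
  induction n with
  | zero => simp [total_zero]
  | succ n ih => rw [succ_nsmul, total_add, ih, succ_nsmul]

end

/-- Clearing denominators. -/
lemma clear (S : Finset P) (g : P → ℚ) (hg : ∃ s ∈ S, g s ≠ 0) :
    ∃ x y : P →₀ ℕ, x ≠ y ∧ (∀ p ∉ S, x p = 0 ∧ y p = 0) ∧
      ∃ D : ℚ, ∀ (A : Type _) [AddCommGroup A] [Module ℚ A] (w : P → A),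
        total w x - total w y = D • ∑ s ∈ S, g s • w s := by
  classical
  set D : ℕ := ∏ s ∈ S, (g s).den with hD
  have hD0 : D ≠ 0 := by
    rw [hD, Finset.prod_ne_zero_iff]
    intro s _
    exact (g s).den_nz
  have hk : ∀ s ∈ S, ∃ k : ℤ, (k : ℚ) = (D : ℚ) * g s := by
    intro s hs
    obtain ⟨m, hm⟩ : (g s).den ∣ D := Finset.dvd_prod_of_mem _ hs
    refine ⟨(g s).num * m, ?_⟩
    rw [hm]
    push_cast
    have h1 : ((g s).den : ℚ) * g s = (g s).num := by
      rw [mul_comm]
      exact Rat.mul_den_eq_num (g s)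
    calc ((g s).num : ℚ) * m = (((g s).den : ℚ) * g s) * m := by rw [h1]
      _ = ((g s).den : ℚ) * m * g s := by ring
  choose! k hk using hk
  set x : P →₀ ℕ := ∑ s ∈ S, Finsupp.single s (k s).toNat with hx
  set y : P →₀ ℕ := ∑ s ∈ S, Finsupp.single s (-(k s)).toNat with hy
  have hxv : ∀ p, x p = if p ∈ S then (k p).toNat else 0 := by
    intro p
    rw [hx, Finsupp.finset_sum_apply]
    simp only [Finsupp.single_apply]
    rw [Finset.sum_ite_eq' S p (fun s => (k s).toNat)]
  have hyv : ∀ p, y p = if p ∈ S then (-(k p)).toNat else 0 := by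
    intro p
    rw [hy, Finsupp.finset_sum_apply]
    simp only [Finsupp.single_apply]
    rw [Finset.sum_ite_eq' S p (fun s => (-(k s)).toNat)]
  refine ⟨x, y, ?_, ?_, (D : ℚ), ?_⟩
  · obtain ⟨s, hs, hgs⟩ := hg
    intro hxy
    have h1 : x s = y s := by rw [hxy]
    rw [hxv, hyv, if_pos hs, if_pos hs] at h1
    have h2 : k s = 0 := by omega
    have h3 := hk s hs
    rw [h2] at h3
    have h4 : (D : ℚ) * g s ≠ 0 := mul_ne_zero (by exact_mod_cast hD0) hgs
    exact h4 (by rw [← h3]; simp)
  · intro p hp
    rw [hxv, hyv, if_neg hp, if_neg hp]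
    exact ⟨rfl, rfl⟩
  · intro A _ _ w
    rw [hx, hy, total_sum, total_sum, ← Finset.sum_sub_distrib, Finset.smul_sum]
    refine Finset.sum_congr rfl fun s hs => ?_
    rw [total_single, total_single, smul_smul, ← hk s hs]
    have h1 : (k s : ℚ) = (((k s).toNat : ℕ) : ℚ) - (((-(k s)).toNat : ℕ) : ℚ) := by
      have h2 : k s = ((k s).toNat : ℤ) - ((-(k s)).toNat : ℤ) := by omega
      calc (k s : ℚ) = (((((k s).toNat : ℕ) : ℤ) - (((-(k s)).toNat : ℕ) : ℤ) : ℤ) : ℚ) := by
            rw [← h2]
        _ = _ := by push_cast; ring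
    rw [h1, sub_smul, Nat.cast_smul_eq_nsmul, Nat.cast_smul_eq_nsmul]

end Pool.Agent.TH861.FT
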