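import Pool.Agent.TH861.FT.Base

/-! Separation, interpolation and fibres. -/

set_option autoImplicit false

open Finset

namespace Pool.Agent.TH861.FT

variable {P : Type*}

lemma eq_of_indep {V : Type*} [AddCommGroup V] [Module ℚ V] (z : P → V)
    (h : LinearIndependent ℚ z) (x y : P →₀ ℕ) (hxy : total z x = total z y) : x = y := by
  classical
  have key : ∀ x : P →₀ ℕ, total z x =
      Finsupp.linearCombination ℚ z (x.mapRange (Nat.cast : ℕ → ℚ) Nat.cast_zero) := by
    intro x
    rw [Finsupp.linearCombination_apply, Finsupp.sum_mapRange_index (by simp)]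
    unfold total
    refine Finsupp.sum_congr fun p _ => ?_
    rw [Nat.cast_smul_eq_nsmul]
  rw [key, key] at hxy
  have h1 := h hxy
  exact Finsupp.mapRange_injective _ Nat.cast_zero Nat.cast_injective h1

lemma indep_of_eq {V : Type*} [AddCommGroup V] [Module ℚ V] (z : P → V)
    (h : ∀ x y : P →₀ ℕ, total z x = total z y → x = y) : LinearIndependent ℚ z := by
  classical
  rw [linearIndependent_iff']
  intro s g hg
  by_contra hne
  push_neg at hne
  obtain ⟨x, y, hxy, -, D, hD⟩ := clear s g hne
  apply hxy
  apply h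
  have := hD V z
  rw [hg, smul_zero] at this
  exact sub_eq_zero.mp this

lemma interp (F : ℕ → Submodule ℚ (P → ℚ)) (hmono : Monotone F)
    (h : ∀ x y : P →₀ ℕ, (∀ d, ∀ v ∈ F d, total v x = total v y) → x = y)
    (S : Finset P) : ∃ d, ∀ r : P → ℚ, ∃ v ∈ F d, ∀ p ∈ S, v p = r p := by
  classical
  set R : (P → ℚ) →ₗ[ℚ] (S → ℚ) := LinearMap.funLeft ℚ ℚ (Subtype.val : S → P) with hR
  set W : ℕ → Submodule ℚ (S → ℚ) := fun d => (F d).map R with hW
  have hWmono : Monotone W := fun a b hab => Submodule.map_mono (hmono hab)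
  have htop : (⨆ d, W d) = ⊤ := by
    by_contra hne
    obtain ⟨f, hf0, hf⟩ := Submodule.exists_le_ker_of_lt_top _ (lt_top_iff_ne_top.mpr hne)
    set g : P → ℚ := fun p => if hp : p ∈ S then f (Pi.single ⟨p, hp⟩ 1) else 0 with hg
    have hsum : ∀ w : P → ℚ, ∑ s ∈ S, g s • w s = f (R w) := by
      intro w
      have h1 : R w = ∑ s : S, (w s.1) • (Pi.single s (1 : ℚ) : S → ℚ) := by
        funext t
        rw [Finset.sum_apply, Finset.sum_eq_single t]
        · simp [hR, LinearMap.funLeft_apply]
        · intro b _ hb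
          simp [Pi.single_apply, Ne.symm hb]
        · intro hb
          exact absurd (mem_univ t) hb
      rw [h1, map_sum, ← Finset.sum_coe_sort S (fun s => g s • w s)]
      refine Finset.sum_congr rfl fun s _ => ?_
      rw [map_smul, hg]
      simp only [s.2, dif_pos, smul_eq_mul]
      ring
    have hex : ∃ s ∈ S, g s ≠ 0 := by
      by_contra hall
      push_neg at hall
      apply hf0
      apply LinearMap.ext
      intro u
      have h1 : u = R (fun p => if hp : p ∈ S then u ⟨p, hp⟩ else 0) := by
        funext t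
        simp [hR, LinearMap.funLeft_apply]
      rw [h1, ← hsum, LinearMap.zero_apply]
      exact Finset.sum_eq_zero fun s hs => by rw [hall s hs, zero_smul]
    obtain ⟨x, y, hxy, -, D, hD⟩ := clear S g hex
    apply hxy
    apply h
    intro d v hv
    have h1 := hD ℚ v
    have h2 : f (R v) = 0 := by
      have h3 : R v ∈ ⨆ d, W d := Submodule.mem_iSup_of_mem d (Submodule.mem_map_of_mem hv)
      exact LinearMap.mem_ker.mp (hf h3)
    rw [hsum, h2, smul_zero] at h1
    exact sub_eq_zero.mp h1
  have hb : ∀ s : S, ∃ d, (Pi.single s (1 : ℚ) : S → ℚ) ∈ W d := by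
    intro s
    have h1 : (Pi.single s (1 : ℚ) : S → ℚ) ∈ ⨆ d, W d := by rw [htop]; trivial
    exact (Submodule.mem_iSup_of_directed W hWmono.directed_le).mp h1
  choose e he using hb
  refine ⟨univ.sup e, fun r => ?_⟩
  have h1 : R r ∈ W (univ.sup e) := by
    have h2 : R r = ∑ s : S, (r s.1) • (Pi.single s (1 : ℚ) : S → ℚ) := by
      funext t
      rw [Finset.sum_apply, Finset.sum_eq_single t]
      · simp [hR, LinearMap.funLeft_apply]
      · intro b _ hb
        simp [Pi.single_apply, Ne.symm hb]
      · intro hb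
        exact absurd (mem_univ t) hb
    rw [h2]
    exact Submodule.sum_mem _ fun s _ => Submodule.smul_mem _ _
      (hWmono (Finset.le_sup (mem_univ s)) (he s))
  obtain ⟨v, hv, hvr⟩ := h1
  refine ⟨v, hv, fun p hp => ?_⟩
  have := congrFun hvr ⟨p, hp⟩
  simpa [hR, LinearMap.funLeft_apply] using this

lemma eq_of_interp (F : ℕ → Submodule ℚ (P → ℚ))
    (h : ∀ S : Finset P, ∃ d, ∀ r : P → ℚ, ∃ v ∈ F d, ∀ p ∈ S, v p = r p)
    (x y : P →₀ ℕ) (hxy : ∀ d, ∀ v ∈ F d, total v x = total v y) : x = y := by
  classical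
  ext p
  by_cases hp : p ∈ x.support ∪ y.support
  · obtain ⟨d, hd⟩ := h (x.support ∪ y.support)
    obtain ⟨v, hv, hvr⟩ := hd (Pi.single p 1)
    have key : ∀ u : P →₀ ℕ, u.support ⊆ x.support ∪ y.support → total v u = u p := by
      intro u hu
      unfold total
      rw [Finsupp.sum, Finset.sum_eq_single p]
      · rw [hvr p hp]
        simp
      · intro b hb hbp
        rw [hvr b (hu hb), Pi.single_eq_of_ne hbp]
        simp
      · intro hb
        rw [Finsupp.notMem_support_iff.mp hb]
        simp
    have h1 := hxy d v hv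
    rw [key x subset_union_left, key y subset_union_right] at h1
    exact_mod_cast h1
  · rw [mem_union, not_or, Finsupp.notMem_support_iff, Finsupp.notMem_support_iff] at hp
    rw [hp.1, hp.2]

/-- If the additive map `total z` is not injective, some fibre has `n + 1` elements of complexity
at most `n K`. -/
lemma big_fibre {A : Type*} [AddCommGroup A] (z : P → A) (c : (P →₀ ℕ) → ℝ)
    (hc0 : ∀ x, 0 ≤ c x) (hc : ∀ x y, c (x + y) ≤ c x + c y)
    (x y : P →₀ ℕ) (hne : x ≠ y) (hxy : total z x = total z y) :
    ∃ K : ℝ, 0 ≤ K ∧ ∀ n : ℕ, 1 ≤ n → ∃ X : Finset (P →₀ ℕ), X.card = n + 1 ∧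
      (∀ u ∈ X, ∀ v ∈ X, total z u = total z v) ∧ ∀ u ∈ X, c u ≤ n * K := by
  classical
  refine ⟨max (c x) (c y), le_max_of_le_left (hc0 x), fun n hn => ?_⟩
  have hcn : ∀ (u : P →₀ ℕ) (m : ℕ), 1 ≤ m → c (m • u) ≤ m * c u := by
    intro u m hm
    induction m, hm using Nat.le_induction with
    | base => simp
    | succ m hm ih =>
      rw [succ_nsmul]
      calc c (m • u + u) ≤ c (m • u) + c u := hc _ _
        _ ≤ m * c u + c u := by linarith
        _ = ((m + 1 : ℕ) : ℝ) * c u := by push_cast; ring
  set f : ℕ → (P →₀ ℕ) := fun a => a • x + (n - a) • y with hf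
  have hinj : Set.InjOn f (range (n + 1) : Set ℕ) := by
    intro a ha b hb hab
    simp only [coe_range, Set.mem_Iio] at ha hb
    by_contra hne2
    apply hne
    ext p
    have h1 : a * x p + (n - a) * y p = b * x p + (n - b) * y p := by
      have := DFunLike.congr_fun hab p
      simpa [hf] using this
    have h2 : ((a : ℤ) - b) * ((x p : ℤ) - y p) = 0 := by
      have h3 : (a : ℤ) * x p + ((n : ℤ) - a) * y p = b * x p + ((n : ℤ) - b) * y p := by
        have h4 : ((a * x p + (n - a) * y p : ℕ) : ℤ) = ((b * x p + (n - b) * y p : ℕ) : ℤ) := by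
          rw [h1]
        rw [Nat.cast_add, Nat.cast_add, Nat.cast_mul, Nat.cast_mul, Nat.cast_mul, Nat.cast_mul,
          Nat.cast_sub (by omega), Nat.cast_sub (by omega)] at h4
        exact h4
      linear_combination h3
    rcases mul_eq_zero.mp h2 with h5 | h5
    · exact absurd (by omega : a = b) hne2
    · omega
  refine ⟨(range (n + 1)).image f, ?_, ?_, ?_⟩
  · rw [Finset.card_image_of_injOn hinj, card_range]
  · have key : ∀ u ∈ (range (n + 1)).image f, total z u = n • total z y := by
      intro u hu
      obtain ⟨a, ha, rfl⟩ := mem_image.mp hu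
      rw [mem_range] at ha
      rw [hf]
      simp only
      rw [total_add, total_smul, total_smul, hxy, ← add_smul]
      congr 1
      omega
    intro u hu v hv
    rw [key u hu, key v hv]
  · intro u hu
    obtain ⟨a, ha, rfl⟩ := mem_image.mp hu
    rw [mem_range] at ha
    simp only [hf]
    rcases Nat.eq_zero_or_pos a with h0 | h0
    · subst h0
      simp only [zero_smul, zero_add, Nat.sub_zero]
      exact (hcn y n hn).trans (mul_le_mul_of_nonneg_left (le_max_right _ _) (Nat.cast_nonneg _))
    · rcases Nat.lt_or_ge a n with h1 | h1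
      · calc c (a • x + (n - a) • y) ≤ c (a • x) + c ((n - a) • y) := hc _ _
          _ ≤ a * c x + ((n - a : ℕ) : ℝ) * c y := add_le_add (hcn x a h0) (hcn y (n - a) (by omega))
          _ ≤ a * max (c x) (c y) + ((n - a : ℕ) : ℝ) * max (c x) (c y) :=
            add_le_add (mul_le_mul_of_nonneg_left (le_max_left _ _) (Nat.cast_nonneg _))
              (mul_le_mul_of_nonneg_left (le_max_right _ _) (Nat.cast_nonneg _))
          _ = n * max (c x) (c y) := by
            rw [← add_mul, ← Nat.cast_add]
            congr 2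
            omega
      · have h2 : n - a = 0 := by omega
        have h3 : a = n := by omega
        rw [h2, zero_smul, add_zero, h3]
        exact (hcn x n hn).trans (mul_le_mul_of_nonneg_left (le_max_left _ _) (Nat.cast_nonneg _))

end Pool.Agent.TH861.FT
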